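import Mathlib
import Pool.Agent.Q161.TPK.Lim

set_option autoImplicit false

/-!
# MP_c12a31_an, Q1: every totally nonnegative kernel is a limit of totally positive kernels

`X`, `Y` are nonempty sets of reals, `K : X × Y → ℝ` is totally nonnegative. There are totally positive
kernels `K_m` on `X × Y` which converge to `K` at every point of continuity of `K`.
-/

namespace Pool.Agent.Results.MP_c12a31_an.TotallyPositiveLimits

open Matrix Filter Topology Pool.Agent.Q161.TPK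

/-- `K` is totally nonnegative on `X × Y`. -/
def TN (X Y : Set ℝ) (K : X → Y → ℝ) : Prop :=
  ∀ (n : ℕ) (x : Fin n → X) (y : Fin n → Y), StrictMono x → StrictMono y →
    0 ≤ (Matrix.of fun i j => K (x i) (y j)).det

/-- `K` is totally positive on `X × Y`. -/
def TP (X Y : Set ℝ) (K : X → Y → ℝ) : Prop :=
  ∀ (n : ℕ) (x : Fin n → X) (y : Fin n → Y), StrictMono x → StrictMono y →
    0 < (Matrix.of fun i j => K (x i) (y j)).det

/-- the first `m + 1` members of a dense sequence of `X` -/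
noncomputable def fin (X : Set ℝ) [Nonempty X] (m : ℕ) : Finset ℝ :=
  (Finset.range (m + 1)).image fun i => (TopologicalSpace.denseSeq X i : ℝ)

theorem fin_sub (X : Set ℝ) [Nonempty X] (m : ℕ) : (fin X m : Set ℝ) ⊆ X := by
  intro a ha
  simp only [fin, Finset.coe_image, Set.mem_image, Finset.mem_coe] at ha
  obtain ⟨i, _, rfl⟩ := ha
  exact (TopologicalSpace.denseSeq X i).2

theorem fin_nonempty (X : Set ℝ) [Nonempty X] (m : ℕ) : (fin X m).Nonempty :=
  ⟨_, Finset.mem_image_of_mem _ (Finset.mem_range.2 (Nat.succ_pos m))⟩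

theorem fin_zero (X : Set ℝ) [Nonempty X] (m : ℕ) :
    (TopologicalSpace.denseSeq X 0 : ℝ) ∈ fin X m :=
  Finset.mem_image_of_mem (fun i => (TopologicalSpace.denseSeq X i : ℝ))
    (Finset.mem_range.2 (Nat.succ_pos m))

theorem fin_dense (X : Set ℝ) [Nonempty X] (x : X) {δ : ℝ} (hδ : 0 < δ) :
    ∃ m0, ∀ m ≥ m0, ∃ s ∈ fin X m, |s - x| < δ := by
  obtain ⟨i, hi⟩ := (TopologicalSpace.denseRange_denseSeq X).exists_dist_lt x hδ
  refine ⟨i, fun m hm => ⟨_, Finset.mem_image_of_mem _ (Finset.mem_range.2 (Nat.lt_succ_of_le hm)), ?_⟩⟩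
  rw [dist_comm] at hi
  exact hi

theorem exp_neg_le {u : ℝ} (hu : 0 < u) : Real.exp (-u) ≤ 1 / u := by
  rw [Real.exp_neg, one_div]
  apply inv_anti₀ hu
  have := Real.add_one_le_exp u
  linarith

theorem main (X Y : Set ℝ) (hX : X.Nonempty) (hY : Y.Nonempty) (K : X → Y → ℝ)
    (hK : TN X Y K) :
    ∃ Km : ℕ → X → Y → ℝ, (∀ m, TP X Y (Km m)) ∧
      ∀ (x : X) (y : Y), ContinuousAt (fun p : X × Y => K p.1 p.2) (x, y) →
        Tendsto (fun m => Km m x y) atTop (𝓝 (K x y)) := by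
  classical
  have : Nonempty X := hX.to_subtype
  have : Nonempty Y := hY.to_subtype
  set K' : ℝ → ℝ → ℝ := fun a b => if h : a ∈ X ∧ b ∈ Y then K ⟨a, h.1⟩ ⟨b, h.2⟩ else 0 with hK'
  have hK'v : ∀ (x : X) (y : Y), K' x y = K x y := by
    intro x y
    simp only [hK']
    rw [dif_pos ⟨x.2, y.2⟩]
  have hTN : TNOn X Y K' := by
    intro n f h hf hh hfX hhY
    have := hK n (fun i => ⟨f i, hfX i⟩) (fun i => ⟨h i, hhY i⟩) (fun i j hij => hf hij)
      (fun i j hij => hh hij)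
    have e : (Matrix.of fun i j => K' (f i) (h j)) =
        Matrix.of fun i j => K ⟨f i, hfX i⟩ ⟨h j, hhY j⟩ := by
      ext i j
      exact hK'v ⟨f i, hfX i⟩ ⟨h j, hhY j⟩
    rw [e]
    exact this
  set S : ℕ → Finset ℝ := fin X with hS
  set T : ℕ → Finset ℝ := fin Y with hT
  set R : ℕ → ℝ := fun m => m + ∑ s ∈ S m, |s| + ∑ t ∈ T m, |t| with hR
  set B : ℕ → ℝ := fun m => ∑ s ∈ S m, ∑ t ∈ T m, (1 + |K' s t|) with hB
  set ε : ℕ → ℝ := fun m => 1 / ((m + 1) * B m) with hε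
  have hSR : ∀ m, ∀ s ∈ S m, |s| + m ≤ R m := by
    intro m s hs
    have h1 := Finset.single_le_sum (f := fun s : ℝ => |s|) (fun s _ => abs_nonneg s) hs
    have h2 : 0 ≤ ∑ t ∈ T m, |t| := Finset.sum_nonneg fun t _ => abs_nonneg t
    simp only [hR]
    linarith
  have hTR : ∀ m, ∀ s ∈ T m, |s| + m ≤ R m := by
    intro m s hs
    have h1 := Finset.single_le_sum (f := fun s : ℝ => |s|) (fun s _ => abs_nonneg s) hs
    have h2 : 0 ≤ ∑ t ∈ S m, |t| := Finset.sum_nonneg fun t _ => abs_nonneg t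
    simp only [hR]
    linarith
  have hB1 : ∀ m, 1 ≤ B m := by
    intro m
    have h0 : ∀ s ∈ S m, 0 ≤ ∑ t ∈ T m, (1 + |K' s t|) :=
      fun s _ => Finset.sum_nonneg fun t _ => by positivity
    have h1 := Finset.single_le_sum h0 (fin_zero X m)
    have h2 := Finset.single_le_sum (f := fun t => 1 + |K' (TopologicalSpace.denseSeq X 0 : ℝ) t|)
      (s := T m) (fun t _ => by positivity) (fin_zero Y m)
    have h3 := abs_nonneg (K' (TopologicalSpace.denseSeq X 0 : ℝ) (TopologicalSpace.denseSeq Y 0 : ℝ))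
    calc (1 : ℝ) ≤ 1 + |K' (TopologicalSpace.denseSeq X 0 : ℝ) (TopologicalSpace.denseSeq Y 0 : ℝ)| := by
          linarith
      _ ≤ _ := h2
      _ ≤ _ := h1
  have hε0 : ∀ m, 0 < ε m := by
    intro m
    have := hB1 m
    simp only [hε]
    positivity
  refine ⟨fun m x y => Kn (ε m) K' (R m) (S m) (T m) x y, ?_, ?_⟩
  · intro m n x y hx hy
    have hm : (0 : ℝ) ≤ m := Nat.cast_nonneg m
    refine Kn_pos (hε0 m) K' (R m) (S m) (T m) (fin_nonempty X m) (fin_nonempty Y m) ?_ ?_ ?_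
      (fun i => (x i : ℝ)) (fun i => (y i : ℝ)) (fun i j hij => hx hij) (fun i j hij => hy hij)
    · intro s hs
      have := hSR m s hs
      have := neg_abs_le s
      linarith
    · intro s hs
      have := hTR m s hs
      have := neg_abs_le s
      linarith
    · intro k f h hf hh hfS hhT
      exact hTN k f h hf hh (fun i => fin_sub X m (hfS i)) (fun i => fin_sub Y m (hhT i))
  · intro x y hc
    rw [Metric.tendsto_atTop]
    intro η hη
    rw [Metric.continuousAt_iff] at hc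
    obtain ⟨δ, hδ, hcδ⟩ := hc (η / 2) (by positivity)
    have hnear : ∀ s ∈ X, ∀ t ∈ Y, |s - x| < δ → |t - y| < δ → |K' s t - K x y| ≤ η / 2 := by
      intro s hs t ht h1 h2
      have h3 : dist ((⟨s, hs⟩, ⟨t, ht⟩) : X × Y) (x, y) < δ := by
        rw [Prod.dist_eq, max_lt_iff]
        exact ⟨h1, h2⟩
      have h4 := hcδ h3
      have h5 := hK'v ⟨s, hs⟩ ⟨t, ht⟩
      simp only at h5
      rw [h5]
      exact (show |K ⟨s, hs⟩ ⟨t, ht⟩ - K x y| < η / 2 from h4).le
    set κ := K x y with hκ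
    set C : ℝ := (1 + |κ|) / (3 / 4 * δ ^ 2) + 1 with hC
    have hC0 : 0 < C := by positivity
    obtain ⟨m1, hm1⟩ := fin_dense X x (half_pos hδ)
    obtain ⟨m2, hm2⟩ := fin_dense Y y (half_pos hδ)
    obtain ⟨m3, hm3⟩ := exists_nat_gt (2 * |(x : ℝ)| + 2 * |(y : ℝ)|)
    obtain ⟨m4, hm4⟩ := exists_nat_gt (2 * C / η)
    refine ⟨max (max m1 m2) (max m3 m4), fun m hm => ?_⟩
    obtain ⟨s', hs', hs'x⟩ := hm1 m (le_trans (le_trans (le_max_left _ _) (le_max_left _ _)) hm)
    obtain ⟨t', ht', ht'y⟩ := hm2 m (le_trans (le_trans (le_max_right _ _) (le_max_left _ _)) hm)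
    have h3 : (m3 : ℝ) ≤ m := by
      exact_mod_cast (le_trans (le_trans (le_max_left _ _) (le_max_right _ _)) hm)
    have h4 : (m4 : ℝ) ≤ m := by
      exact_mod_cast (le_trans (le_trans (le_max_right _ _) (le_max_right _ _)) hm)
    have hm0 : (0 : ℝ) ≤ m := Nat.cast_nonneg m
    have hBm := hB1 m
    have hinv : 1 / ε m = (m + 1) * B m := by
      simp only [hε]
      rw [one_div_one_div]
    have hhead := head_est (hε0 m) K' (S m) (T m) (x := x) (y := y) (κ := κ) hδ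
      (by positivity : (0 : ℝ) ≤ η / 2) hs' hs'x ht' ht'y
      (fun s hs t ht => hnear s (fin_sub X m hs) t (fin_sub Y m ht))
    have hx2 : -(m : ℝ) ≤ 2 * x := by
      have := neg_abs_le (x : ℝ)
      have := abs_nonneg (y : ℝ)
      linarith
    have hy2 : -(m : ℝ) ≤ 2 * y := by
      have := neg_abs_le (y : ℝ)
      have := abs_nonneg (x : ℝ)
      linarith
    have hss := hSR m s' hs'
    have htt := hTR m t' ht'
    have hsa := neg_abs_le s'
    have hsb := le_abs_self s'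
    have hta := neg_abs_le t'
    have htb := le_abs_self t'
    have htail := tail_est (hε0 m) (R m) (S m) (T m) (x := x) (y := y) hs' ht'
      (by linarith) (by linarith) (by linarith) (by linarith)
    have e1 : Real.exp (-(3 / 4 * δ ^ 2 / ε m)) * ((1 + |κ|) * B m) ≤
        (1 + |κ|) / (3 / 4 * δ ^ 2) / (m + 1) := by
      have h5 : 3 / 4 * δ ^ 2 / ε m = 3 / 4 * δ ^ 2 * ((m + 1) * B m) := by
        rw [div_eq_mul_one_div, hinv]
      rw [h5]
      have h6 : 0 < 3 / 4 * δ ^ 2 * ((m + 1) * B m) := by positivity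
      calc _ ≤ 1 / (3 / 4 * δ ^ 2 * ((m + 1) * B m)) * ((1 + |κ|) * B m) :=
            mul_le_mul_of_nonneg_right (exp_neg_le h6) (by positivity)
        _ = _ := by
            have : B m ≠ 0 := by positivity
            field_simp
    have e2 : Real.exp (-(1 / ε m)) ≤ 1 / (m + 1) := by
      rw [hinv]
      have h6 : (0 : ℝ) < (m + 1) * B m := by positivity
      calc _ ≤ 1 / (((m : ℝ) + 1) * B m) := exp_neg_le h6
        _ ≤ _ := by
            apply one_div_le_one_div_of_le (by positivity)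
            nlinarith
    have e3 : C / (m + 1) < η / 2 := by
      rw [div_lt_iff₀ (by positivity)]
      have h7 : 2 * C / η < m := lt_of_lt_of_le hm4 h4
      rw [div_lt_iff₀ hη] at h7
      linarith
    rw [Real.dist_eq]
    have e4 : Kn (ε m) K' (R m) (S m) (T m) x y - κ =
        ((∑ s ∈ S m, g (ε m) x s)⁻¹ * ((∑ t ∈ T m, g (ε m) t y)⁻¹ * hd (ε m) K' (S m) (T m) x y) - κ) +
        (∑ s ∈ S m, g (ε m) x s)⁻¹ * ((∑ t ∈ T m, g (ε m) t y)⁻¹ * ∑' k, tl (ε m) (R m) x y k) := by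
      unfold Kn Hi
      ring
    rw [e4]
    have e5 : C / ((m : ℝ) + 1) = (1 + |κ|) / (3 / 4 * δ ^ 2) / (m + 1) + 1 / (m + 1) := by
      simp only [hC]
      rw [add_div]
    have e6 := abs_add_le ((∑ s ∈ S m, g (ε m) x s)⁻¹ * ((∑ t ∈ T m, g (ε m) t y)⁻¹ *
      hd (ε m) K' (S m) (T m) x y) - κ) ((∑ s ∈ S m, g (ε m) x s)⁻¹ *
      ((∑ t ∈ T m, g (ε m) t y)⁻¹ * ∑' k, tl (ε m) (R m) x y k))
    rw [abs_of_nonneg htail.1] at e6
    have e7 := htail.2
    have e8 : (1 + |κ|) * (∑ s ∈ S m, ∑ t ∈ T m, (1 + |K' s t|)) = (1 + |κ|) * B m := rfl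
    rw [e8] at hhead
    linarith

theorem result : ∀ X Y : Set ℝ, X.Nonempty → Y.Nonempty → ∀ K : X → Y → ℝ, TN X Y K →
    ∃ Km : ℕ → X → Y → ℝ, (∀ m, TP X Y (Km m)) ∧
      ∀ (x : X) (y : Y), ContinuousAt (fun p : X × Y => K p.1 p.2) (x, y) →
        Tendsto (fun m => Km m x y) atTop (𝓝 (K x y)) :=
  main

end Pool.Agent.Results.MP_c12a31_an.TotallyPositiveLimits
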